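import Pool.Agent.Run7.h342.MD.Stm

/-!
Piece F3 of the project MD (helper342): a non-scalar element of the stabilizer acts non-trivially
on the normal space of the orbit.
-/

set_option autoImplicit false

namespace Run7.h198.MD

open MvPolynomial Run7.h342.MD

noncomputable section

section ring

variable {n d : ℕ} {R : Type} [CommRing R]

/-- chain rule -/
theorem pderiv_aeval (f : Fin n → MvPolynomial (Fin n) R) (P : MvPolynomial (Fin n) R)
    (l : Fin n) : pderiv l (aeval f P) = ∑ m, aeval f (pderiv m P) * pderiv l (f m) := by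
  induction P using MvPolynomial.induction_on with
  | C a =>
    have h1 : (aeval f (C a) : MvPolynomial (Fin n) R) = C a := aeval_C _ _
    rw [h1]
    simp
  | add p q hp hq =>
    rw [map_add, map_add, hp, hq, ← Finset.sum_add_distrib]
    refine Finset.sum_congr rfl fun m _ => ?_
    rw [map_add, map_add, add_mul]
  | mul_X p i hp =>
    rw [map_mul, aeval_X, pderiv_mul, hp, Finset.sum_mul]
    have h1 : aeval f p * pderiv l (f i) =
        ∑ m, (if i = m then aeval f p * pderiv l (f m) else 0) := by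
      rw [Finset.sum_ite_eq, if_pos (Finset.mem_univ _)]
    rw [h1, ← Finset.sum_add_distrib]
    refine Finset.sum_congr rfl fun m _ => ?_
    rw [pderiv_mul, pderiv_X, map_add, map_mul, map_mul, aeval_X]
    by_cases him : i = m
    · subst him
      rw [if_pos rfl, Pi.single_eq_same, map_one]
      ring
    · rw [if_neg him, Pi.single_eq_of_ne him, map_zero]
      ring

theorem pol_lie (hd : 2 ≤ d) (Y : Matrix (Fin n) (Fin n) R) (c : Ix n d → R) (i : Fin n) :
    pol (lie Y c) i =
      ∑ j, C (Y i j) * pol c j - ∑ l, (∑ m, C (Y l m) * X m) * pderiv l (pol c i) := by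
  refine pol_of_coeff (P := fun i => ∑ j, C (Y i j) * pol c j -
    ∑ l, (∑ m, C (Y l m) * X m) * pderiv l (pol c i)) (fun i => ?_) i
  refine IsHomogeneous.sub ?_ ?_
  · refine IsHomogeneous.sum _ _ _ fun j _ => ?_
    have := (isHomogeneous_C (Fin n) (Y i j)).mul (isHomogeneous_pol c j)
    rwa [zero_add] at this
  · refine IsHomogeneous.sum _ _ _ fun l _ => ?_
    have := (isHomogeneous_lin Y l).mul ((isHomogeneous_pol c i).pderiv (i := l))
    have h2 : 1 + (d - 1) = d := by omega
    rwa [h2] at this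

/-- the differential of the map with coefficients `c` -/
def dif (c : Ix n d → R) (x v : Fin n → R) : Fin n → R :=
  fun i => ∑ l, v l * eval x (pderiv l (pol c i))

theorem ev_lie (hd : 2 ≤ d) (Y : Matrix (Fin n) (Fin n) R) (c : Ix n d → R) (x : Fin n → R) :
    ev (lie Y c) x = Y.mulVec (ev c x) - dif c x (Y.mulVec x) := by
  funext i
  rw [← eval_pol, pol_lie hd, Pi.sub_apply, map_sub, map_sum, map_sum]
  congr 1
  · simp only [Matrix.mulVec, dotProduct]
    refine Finset.sum_congr rfl fun j _ => ?_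
    rw [map_mul, eval_C, eval_pol]
  · simp only [dif, Matrix.mulVec, dotProduct]
    refine Finset.sum_congr rfl fun l _ => ?_
    rw [map_mul, map_sum]
    congr 1
    refine Finset.sum_congr rfl fun m _ => ?_
    rw [map_mul, eval_C, eval_X]

theorem dif_tw (A B : Matrix (Fin n) (Fin n) R) (c : Ix n d → R) (x v : Fin n → R) :
    dif (tw A B c) x v = A.mulVec (dif c (B.mulVec x) (B.mulVec v)) := by
  funext i
  have hB : ∀ m l, pderiv l (∑ p, C (B m p) * X p : MvPolynomial (Fin n) R) = C (B m l) := by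
    intro m l
    rw [map_sum, Finset.sum_eq_single l]
    · rw [pderiv_mul, pderiv_C, pderiv_X_self]
      ring
    · intro p _ hp
      rw [pderiv_mul, pderiv_C, pderiv_X_of_ne hp]
      ring
    · intro h
      exact absurd (Finset.mem_univ _) h
  have hx : (fun m => eval x (∑ p, C (B m p) * X p)) = B.mulVec x := by
    funext m
    rw [map_sum]
    simp only [Matrix.mulVec, dotProduct]
    refine Finset.sum_congr rfl fun p _ => ?_
    rw [map_mul, eval_C, eval_X]
  have h1 : ∀ l, eval x (pderiv l (pol (tw A B c) i)) =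
      ∑ j, A i j * ∑ m, eval (B.mulVec x) (pderiv m (pol c j)) * B m l := by
    intro l
    rw [pol_tw, map_sum, map_sum]
    refine Finset.sum_congr rfl fun j _ => ?_
    rw [pderiv_mul, pderiv_C, zero_mul, zero_add, map_mul, eval_C, pderiv_aeval, map_sum]
    congr 1
    refine Finset.sum_congr rfl fun m _ => ?_
    rw [map_mul, hB, eval_C, eval_aeval, hx]
  simp only [dif, h1, Matrix.mulVec, dotProduct, Finset.mul_sum, Finset.sum_mul]
  rw [Finset.sum_comm]
  refine Finset.sum_congr rfl fun j _ => ?_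
  rw [Finset.sum_comm]
  refine Finset.sum_congr rfl fun m _ => ?_
  refine Finset.sum_congr rfl fun l _ => ?_
  ring

theorem lie_add (Y Y' : Matrix (Fin n) (Fin n) R) (c : Ix n d → R) :
    lie (Y + Y') c = lie Y c + lie Y' c := by
  funext q
  rw [Pi.add_apply]
  unfold lie
  rw [← coeff_add]
  congr 1
  simp only [Matrix.add_apply, map_add, add_mul, Finset.sum_add_distrib]
  ring

theorem lie_smul (a : R) (Y : Matrix (Fin n) (Fin n) R) (c : Ix n d → R) :
    lie (a • Y) c = a • lie Y c := by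
  funext q
  rw [Pi.smul_apply, smul_eq_mul]
  unfold lie
  rw [← coeff_C_mul]
  congr 1
  simp only [Matrix.smul_apply, smul_eq_mul, map_mul, mul_sub, Finset.mul_sum, Finset.sum_mul,
    mul_assoc]

theorem lie_sub (Y Y' : Matrix (Fin n) (Fin n) R) (c : Ix n d → R) :
    lie (Y - Y') c = lie Y c - lie Y' c := by
  have h := lie_add (Y - Y') Y' c
  rw [sub_add_cancel] at h
  rw [h, add_sub_cancel_right]

/-- `lie` as a linear map in the matrix -/
def lieL (c : Ix n d → R) : Matrix (Fin n) (Fin n) R →ₗ[R] (Ix n d → R) where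
  toFun Y := lie Y c
  map_add' Y Y' := lie_add Y Y' c
  map_smul' a Y := lie_smul a Y c

end ring

section field

variable {n d : ℕ} {k : Type} [Field k] [Infinite k]

theorem act_lie (hd : 2 ≤ d) (g : GL (Fin n) k) (Y : Matrix (Fin n) (Fin n) k)
    (c : Ix n d → k) :
    act g (lie Y c) = lie (g.1 * Y * (g⁻¹ : GL (Fin n) k).1) (act g c) := by
  apply ev_injective
  intro x
  rw [ev_act, ev_lie hd, ev_lie hd, ev_act, act, dif_tw, Matrix.mulVec_sub]
  congr 1
  · rw [Matrix.mulVec_mulVec, Matrix.mulVec_mulVec]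
    congr 1
    rw [mul_assoc, mul_assoc]
    have : (g⁻¹ : GL (Fin n) k).1 * g.1 = 1 := g.inv_mul
    rw [this, mul_one]
  · congr 2
    rw [Matrix.mulVec_mulVec, Matrix.mulVec_mulVec]
    congr 1
    have : (g⁻¹ : GL (Fin n) k).1 * g.1 = 1 := g.inv_mul
    rw [mul_assoc, ← mul_assoc, this, one_mul]

theorem act_diag (D : GL (Fin n) k) (a : Fin n → k) (ha : ∀ i, a i ≠ 0)
    (hD : D.1 = Matrix.diagonal a) (c : Ix n d → k) :
    act D c = fun q => a q.1 / ((q.2 : Multiset (Fin n)).map a).prod * c q := by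
  apply act_eq_of
  intro x
  rw [hD]
  funext i
  rw [Matrix.mulVec_diagonal]
  unfold ev
  rw [Finset.mul_sum]
  refine Finset.sum_congr rfl fun s _ => ?_
  have h1 : ((s : Multiset (Fin n)).map ((Matrix.diagonal a).mulVec x)).prod =
      ((s : Multiset (Fin n)).map a).prod * ((s : Multiset (Fin n)).map x).prod := by
    rw [← Multiset.prod_map_mul]
    congr 1
    refine Multiset.map_congr rfl fun j _ => ?_
    rw [Matrix.mulVec_diagonal]
  have h2 : ((s : Multiset (Fin n)).map a).prod ≠ 0 := by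
    apply Multiset.prod_ne_zero
    intro h
    rw [Multiset.mem_map] at h
    obtain ⟨j, _, hj⟩ := h
    exact ha j hj
  rw [h1]
  field_simp

theorem act_single (D : GL (Fin n) k) (a : Fin n → k) (ha : ∀ i, a i ≠ 0)
    (hD : D.1 = Matrix.diagonal a) (q : Ix n d) :
    act D (Pi.single q 1) =
      (a q.1 / ((q.2 : Multiset (Fin n)).map a).prod) • (Pi.single q 1 : Ix n d → k) := by
  rw [act_diag D a ha hD]
  funext q'
  rw [Pi.smul_apply, smul_eq_mul]
  by_cases hqq : q' = q
  · rw [hqq]
  · rw [Pi.single_eq_of_ne hqq, mul_zero, mul_zero]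

/-- the action as a linear map -/
def actL (g : GL (Fin n) k) : (Ix n d → k) →ₗ[k] (Ix n d → k) where
  toFun c := act g c
  map_add' c c' := act_add g c c'
  map_smul' a c := act_smul g a c

theorem actL_injective (g : GL (Fin n) k) : Function.Injective (actL (d := d) g) := by
  intro c c' h
  have h1 : act g c = act g c' := h
  have h2 := congrArg (act g⁻¹) h1
  rwa [← act_mul, ← act_mul, inv_mul_cancel, act_one, act_one] at h2

/-- `Y ↦ g Y g⁻¹ - Y` -/
def adL (g : GL (Fin n) k) :
    Matrix (Fin n) (Fin n) k →ₗ[k] Matrix (Fin n) (Fin n) k where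
  toFun Y := g.1 * Y * (g⁻¹ : GL (Fin n) k).1 - Y
  map_add' Y Y' := by
    rw [Matrix.mul_add, Matrix.add_mul]
    abel
  map_smul' a Y := by
    rw [RingHom.id_apply, Matrix.mul_smul, Matrix.smul_mul, smul_sub]

/-- `b ↦ u diag(b) u⁻¹` -/
def diL (u : GL (Fin n) k) : (Fin n → k) →ₗ[k] Matrix (Fin n) (Fin n) k where
  toFun b := u.1 * Matrix.diagonal b * (u⁻¹ : GL (Fin n) k).1
  map_add' b b' := by
    rw [show Matrix.diagonal (b + b') = Matrix.diagonal b + Matrix.diagonal b' from
      (Matrix.diagonal_add b b').symm, Matrix.mul_add, Matrix.add_mul]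
  map_smul' a b := by
    rw [RingHom.id_apply, Matrix.diagonal_smul, Matrix.mul_smul, Matrix.smul_mul]

omit [Infinite k] in
theorem diL_injective (u : GL (Fin n) k) : Function.Injective (diL u) := by
  intro b b' h
  have h1 : u.1 * Matrix.diagonal b * (u⁻¹ : GL (Fin n) k).1 =
    u.1 * Matrix.diagonal b' * (u⁻¹ : GL (Fin n) k).1 := h
  have h2 := congrArg (fun M => (u⁻¹ : GL (Fin n) k).1 * M * u.1) h1
  have h3 : (u⁻¹ : GL (Fin n) k).1 * u.1 = 1 := u.inv_mul
  have h4 : ∀ M : Matrix (Fin n) (Fin n) k,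
      (u⁻¹ : GL (Fin n) k).1 * (u.1 * M * (u⁻¹ : GL (Fin n) k).1) * u.1 = M := by
    intro M
    calc (u⁻¹ : GL (Fin n) k).1 * (u.1 * M * (u⁻¹ : GL (Fin n) k).1) * u.1 =
        ((u⁻¹ : GL (Fin n) k).1 * u.1) * M * ((u⁻¹ : GL (Fin n) k).1 * u.1) := by
          simp only [mul_assoc]
      _ = M := by rw [h3, one_mul, mul_one]
  simp only [h4] at h2
  exact Matrix.diagonal_injective h2

end field

theorem t_F3 {n d : ℕ} {k : Type} [Field k] [IsAlgClosed k] [CharZero k] (hn : 3 ≤ n)
    (hd : 2 ≤ d) (hC : S_COMB n d k) (hDi : S_DIAG n d k) : S_F3 n d k := by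
  classical
  have : Infinite k := IsAlgClosed.instInfinite
  intro c g hg hns
  obtain ⟨u, a, hu⟩ := hDi c.1 c.2 g hg
  by_contra hcon
  push Not at hcon
  -- the diagonal matrix
  set D : GL (Fin n) k := u⁻¹ * g * u with hDdef
  have h3 : (u⁻¹ : GL (Fin n) k).1 * u.1 = 1 := u.inv_mul
  have hD : D.1 = Matrix.diagonal a := by
    have e1 : D.1 = (u⁻¹ : GL (Fin n) k).1 * g.1 * u.1 := rfl
    have e2 : g.1 = u.1 * Matrix.diagonal a * (u⁻¹ : GL (Fin n) k).1 := hu
    rw [e1, e2]
    calc (u⁻¹ : GL (Fin n) k).1 * (u.1 * Matrix.diagonal a * (u⁻¹ : GL (Fin n) k).1) * u.1 =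
        ((u⁻¹ : GL (Fin n) k).1 * u.1) * Matrix.diagonal a * ((u⁻¹ : GL (Fin n) k).1 * u.1) := by
          simp only [mul_assoc]
      _ = Matrix.diagonal a := by rw [h3, one_mul, mul_one]
  have hgu : g * u = u * D := by
    rw [hDdef]
    group
  have ha : ∀ i, a i ≠ 0 := by
    have h1 : D.1.det ≠ 0 := by
      have : IsUnit D.1.det := (Matrix.isUnit_iff_isUnit_det _).1 D.isUnit
      exact this.ne_zero
    rw [hD, Matrix.det_diagonal] at h1
    intro i hi
    exact h1 (Finset.prod_eq_zero (Finset.mem_univ i) hi)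
  have hne : ∃ i j, a i ≠ a j := by
    by_contra hall
    push Not at hall
    apply hns
    refine ⟨a ⟨0, by omega⟩, ?_⟩
    have h1 : Matrix.diagonal a = a ⟨0, by omega⟩ • (1 : Matrix (Fin n) (Fin n) k) := by
      rw [← Matrix.diagonal_one, ← Matrix.diagonal_smul]
      congr 1
      funext i
      rw [Pi.smul_apply, smul_eq_mul, mul_one]
      exact hall i _
    have h4 : u.1 * (u⁻¹ : GL (Fin n) k).1 = 1 := u.mul_inv
    rw [hu, h1, Matrix.mul_smul, mul_one, Matrix.smul_mul]
    rw [show (u : Matrix (Fin n) (Fin n) k) * ((u⁻¹ : GL (Fin n) k) : Matrix (Fin n) (Fin n) k) = 1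
      from h4]
  have hcount := hC a ha hne
  -- the eigenvectors
  set Q : Set (Ix n d) := {q : Ix n d | a q.1 ≠ ((q.2 : Multiset (Fin n)).map a).prod} with hQ
  set w : Ix n d → (Ix n d → k) := fun q => act u (Pi.single q 1) with hw
  set lam : Ix n d → k := fun q => a q.1 / ((q.2 : Multiset (Fin n)).map a).prod with hlam
  have heig : ∀ q, act g (w q) = lam q • w q := by
    intro q
    have e1 : act g (act u (Pi.single q 1)) =
        (a q.1 / ((q.2 : Multiset (Fin n)).map a).prod) • act u (Pi.single q 1) := by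
      rw [← act_mul, hgu, act_mul, act_single D a ha hD, act_smul]
    exact e1
  have hlam1 : ∀ q ∈ Q, lam q ≠ 1 := by
    intro q hq h1
    apply hq
    have h2 : ((q.2 : Multiset (Fin n)).map a).prod ≠ 0 := by
      apply Multiset.prod_ne_zero
      intro h
      rw [Multiset.mem_map] at h
      obtain ⟨j, _, hj⟩ := h
      exact ha j hj
    exact (div_eq_one_iff_eq h2).1 h1
  -- they are in the range
  have hmem : ∀ q ∈ Q, w q ∈ LinearMap.range ((lieL c.1) ∘ₗ (adL g)) := by
    intro q hq
    have hl := sub_ne_zero.2 (hlam1 q hq)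
    obtain ⟨Y, hY⟩ := hcon (((lam q - 1) ^ 2)⁻¹ • w q)
    refine ⟨Y, ?_⟩
    have h1 : act g (((lam q - 1) ^ 2)⁻¹ • w q) - ((lam q - 1) ^ 2)⁻¹ • w q =
        (lam q - 1)⁻¹ • w q := by
      rw [act_smul, heig, smul_smul, ← sub_smul]
      congr 1
      field_simp
    have h2 : act g (lie Y c.1) - lie Y c.1 = w q := by
      rw [← hY, h1, act_smul, heig, smul_smul, ← sub_smul]
      have : (lam q - 1)⁻¹ * lam q - (lam q - 1)⁻¹ = 1 := by
        field_simp
      rw [this, one_smul]
    rw [act_lie hd, hg] at h2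
    have h4 : lie (g.1 * Y * (g⁻¹ : GL (Fin n) k).1 - Y) c.1 =
        lie (g.1 * Y * (g⁻¹ : GL (Fin n) k).1) c.1 - lie Y c.1 := lie_sub _ _ _
    have h5 : (lieL c.1 ∘ₗ adL g) Y = lie (g.1 * Y * (g⁻¹ : GL (Fin n) k).1 - Y) c.1 := rfl
    rw [h5, h4, h2]
  -- counting
  have hli : LinearIndependent k (fun q : Q => w q.1) := by
    have h1 : LinearIndependent k (fun q : Ix n d => (Pi.single q (1 : k) : Ix n d → k)) := by
      have := (Pi.basisFun k (Ix n d)).linearIndependent
      convert this using 1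
      funext q
      rw [Pi.basisFun_apply]
    have h2 : LinearIndependent k (fun q : Ix n d => actL u (Pi.single q (1 : k))) :=
      h1.map' (actL u) (LinearMap.ker_eq_bot.2 (actL_injective u))
    exact h2.comp (fun q : Q => q.1) Subtype.val_injective
  have hQc : Q.ncard ≤ Module.finrank k (LinearMap.range ((lieL c.1) ∘ₗ (adL g))) := by
    have h1 : LinearIndependent k (fun q : Q =>
        (⟨w q.1, hmem q.1 q.2⟩ : LinearMap.range ((lieL c.1) ∘ₗ (adL g)))) := by
      apply LinearIndependent.of_comp (LinearMap.range ((lieL c.1) ∘ₗ (adL g))).subtype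
      exact hli
    have h2 := h1.fintype_card_le_finrank
    rwa [← Nat.card_coe_set_eq, Nat.card_eq_fintype_card]
  have h6 : Module.finrank k (LinearMap.range ((lieL c.1) ∘ₗ (adL g))) ≤
      Module.finrank k (LinearMap.range (adL g)) := by
    rw [LinearMap.range_comp]
    exact Submodule.finrank_map_le _ _
  have h7 : Module.finrank k (LinearMap.range (adL g)) +
      Module.finrank k (LinearMap.ker (adL g)) = n * n := by
    rw [LinearMap.finrank_range_add_finrank_ker, Module.finrank_matrix]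
    simp
  have h8 : n ≤ Module.finrank k (LinearMap.ker (adL g)) := by
    have e1 : LinearMap.range (diL u) ≤ LinearMap.ker (adL g) := by
      rintro _ ⟨b, rfl⟩
      rw [LinearMap.mem_ker]
      show g.1 * (u.1 * Matrix.diagonal b * (u⁻¹ : GL (Fin n) k).1) * (g⁻¹ : GL (Fin n) k).1 -
        (u.1 * Matrix.diagonal b * (u⁻¹ : GL (Fin n) k).1) = 0
      rw [sub_eq_zero]
      have e2 : g.1 * u.1 = u.1 * D.1 := congrArg Units.val hgu
      have e3 : (u⁻¹ : GL (Fin n) k).1 * (g⁻¹ : GL (Fin n) k).1 =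
          (D⁻¹ : GL (Fin n) k).1 * (u⁻¹ : GL (Fin n) k).1 := by
        have : u⁻¹ * g⁻¹ = D⁻¹ * u⁻¹ := by
          rw [hDdef]
          group
        exact congrArg Units.val this
      have e4 : D.1 * Matrix.diagonal b * (D⁻¹ : GL (Fin n) k).1 = Matrix.diagonal b := by
        have : D.1 * Matrix.diagonal b = Matrix.diagonal b * D.1 := by
          rw [hD, Matrix.diagonal_mul_diagonal, Matrix.diagonal_mul_diagonal]
          congr 1
          funext i
          exact mul_comm _ _
        have e5 : D.1 * (D⁻¹ : GL (Fin n) k).1 = 1 := D.mul_inv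
        rw [this, mul_assoc, e5, mul_one]
      calc g.1 * (u.1 * Matrix.diagonal b * (u⁻¹ : GL (Fin n) k).1) * (g⁻¹ : GL (Fin n) k).1 =
          (g.1 * u.1) * Matrix.diagonal b *
            ((u⁻¹ : GL (Fin n) k).1 * (g⁻¹ : GL (Fin n) k).1) := by simp only [mul_assoc]
        _ = u.1 * (D.1 * Matrix.diagonal b * (D⁻¹ : GL (Fin n) k).1) *
            (u⁻¹ : GL (Fin n) k).1 := by rw [e2, e3]; simp only [mul_assoc]
        _ = u.1 * Matrix.diagonal b * (u⁻¹ : GL (Fin n) k).1 := by rw [e4]
    have e6 := Submodule.finrank_mono e1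
    rw [LinearMap.finrank_range_of_inj (diL_injective u)] at e6
    simpa using e6
  omega

end

end Run7.h198.MD
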