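import Pool.Agent.Run7.h342.MD.Stm

/-!
Piece TRD of the project MD (helper342): the Krull dimension is at most the transcendence degree.
The lemmas `peel` and `aeval_cons` are those of `Pool/Agent/N808/AS/GKDA.lean`.
-/

set_option autoImplicit false

namespace Run7.h198.MD

open MvPolynomial

theorem peel {R A : Type} [CommRing R] [CommRing A] (φ : R →+* A) (P : Ideal A) [hP : P.IsPrime]
    (t : A) (ht : t ∉ P) : ∀ (k : ℕ) (f : Polynomial R),
    f.coeff k ≠ 0 → f.eval₂ φ t ∈ P → ∃ k', f.coeff k' ≠ 0 ∧ ∃ z, φ (f.coeff k') + t * z ∈ P := by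
  have h0 : ∀ f : Polynomial R, f.eval₂ φ t = φ (f.coeff 0) + t * f.divX.eval₂ φ t := by
    intro f
    conv_lhs => rw [← Polynomial.divX_mul_X_add f]
    rw [Polynomial.eval₂_add, Polynomial.eval₂_mul_X, Polynomial.eval₂_C]
    ring
  intro k
  induction k with
  | zero =>
    intro f hf hev
    exact ⟨0, hf, _, by rwa [h0] at hev⟩
  | succ k ih =>
    intro f hf hev
    by_cases hf0 : f.coeff 0 = 0
    · rw [h0, hf0, map_zero, zero_add] at hev
      have h2 : f.divX.eval₂ φ t ∈ P := (hP.mem_or_mem hev).resolve_left ht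
      obtain ⟨k', hk', z, hz⟩ := ih f.divX (by rwa [Polynomial.coeff_divX]) h2
      rw [Polynomial.coeff_divX] at hk' hz
      exact ⟨k' + 1, hk', z, hz⟩
    · exact ⟨0, hf0, _, by rwa [h0] at hev⟩

theorem aeval_cons {k A : Type} [CommRing k] [CommRing A] [Algebra k A] {n : ℕ} (t : A)
    (x : Fin n → A) (f : MvPolynomial (Fin (n + 1)) k) :
    aeval (Fin.cons t x : Fin (n + 1) → A) f =
      (finSuccEquiv k n f).eval₂ ((aeval x : MvPolynomial (Fin n) k →ₐ[k] A) :
        MvPolynomial (Fin n) k →+* A) t := by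
  induction f using MvPolynomial.induction_on with
  | C a =>
    rw [aeval_C]
    have h1 : finSuccEquiv k n (C a) = Polynomial.C (C a) := by
      rw [← MvPolynomial.algebraMap_eq, AlgEquiv.commutes]
      rfl
    rw [h1, Polynomial.eval₂_C]
    show _ = aeval x (C a)
    rw [aeval_C]
  | add p q hp hq => rw [map_add, map_add, Polynomial.eval₂_add, hp, hq]
  | mul_X p i hp =>
    rw [map_mul, map_mul, Polynomial.eval₂_mul, hp, aeval_X]
    congr 1
    refine Fin.cases ?_ (fun j => ?_) i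
    · rw [finSuccEquiv_X_zero, Polynomial.eval₂_X, Fin.cons_zero]
    · rw [finSuccEquiv_X_succ, Polynomial.eval₂_C, Fin.cons_succ]
      show _ = aeval x (X j)
      rw [aeval_X]

theorem chain {k R : Type} [Field k] [CommRing R] [Algebra k R] (a : ℕ) :
    ∀ p : Fin (a + 1) → PrimeSpectrum R, StrictMono p →
      ∃ x : Fin a → R, ∀ P : MvPolynomial (Fin a) k, P ≠ 0 → aeval x P ∉ (p 0).asIdeal := by
  induction a with
  | zero =>
    intro p _
    refine ⟨fun i => i.elim0, fun P hP hmem => ?_⟩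
    obtain ⟨c, rfl⟩ := MvPolynomial.C_surjective (Fin 0) P
    rw [aeval_C] at hmem
    have hc : c ≠ 0 := by
      rintro rfl
      exact hP (map_zero _)
    have h1 : algebraMap k R c⁻¹ * algebraMap k R c ∈ (p 0).asIdeal :=
      Ideal.mul_mem_left _ _ hmem
    rw [← map_mul, inv_mul_cancel₀ hc, map_one] at h1
    exact (p 0).2.ne_top ((Ideal.eq_top_iff_one _).2 h1)
  | succ a ih =>
    intro p hp
    obtain ⟨x, hx⟩ := ih (fun i => p i.succ) (fun i j hij => hp (Fin.succ_lt_succ_iff.2 hij))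
    have hlt : p 0 < p (Fin.succ 0) := hp (Fin.succ_pos 0)
    have hlt' : (p 0).asIdeal < (p (Fin.succ 0)).asIdeal := hlt
    obtain ⟨hle, t, ht', ht⟩ := SetLike.lt_iff_le_and_exists.mp hlt'
    refine ⟨Fin.cons t x, fun P hP hmem => ?_⟩
    rw [aeval_cons] at hmem
    have hf : finSuccEquiv k a P ≠ 0 := by
      intro h
      exact hP ((finSuccEquiv k a).injective (by rw [h, map_zero]))
    obtain ⟨j, hj⟩ : ∃ j, (finSuccEquiv k a P).coeff j ≠ 0 := by
      by_contra hcon
      push Not at hcon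
      exact hf (Polynomial.ext hcon)
    have := (p 0).2
    obtain ⟨k', hk', z, hz⟩ := peel _ (p 0).asIdeal t ht j _ hj hmem
    refine hx _ hk' ?_
    have h1 := hle hz
    exact (Ideal.add_mem_iff_left _ (Ideal.mul_mem_right _ _ ht')).1 h1

theorem t_TRD : Run7.h342.MD.S_TRD := by
  intro k R _ _ _ a ha
  have h1 : ∃ l : LTSeries (PrimeSpectrum R), l.length = a :=
    (Order.le_krullDim_iff).1 ha
  obtain ⟨l, rfl⟩ := h1
  obtain ⟨x, hx⟩ := chain (k := k) l.length l l.strictMono
  refine ⟨x, ?_⟩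
  rw [AlgebraicIndependent, injective_iff_map_eq_zero]
  intro P hP
  by_contra hne
  apply hx P hne
  rw [hP]
  exact zero_mem _

end Run7.h198.MD
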